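import Pool.Agent.helper84.ZD.SpecA

/-!
# Project zd (MP_4467b5_nt), module GEC
-/

set_option autoImplicit false

open Complex MeasureTheory

namespace Pool.Agent.ZD

open Pool.Agent.helper84.DM Pool.Agent.helper78.ED Pool.Agent.DH

theorem GEC_ee : Continuous ee := by
  unfold ee
  fun_prop

theorem GEC_EE (X : ℝ) (M : ℕ) : Continuous (EE X M) := by
  unfold EE
  refine continuous_const.mul (continuous_finsetSum _ fun m _ => ?_)
  refine GEC_ee.comp ?_
  fun_prop

/-- GEC. The function `GE`. -/
theorem GEC (h : PHS_stmt) : GEC_stmt := by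
  obtain ⟨hc, _, _, _, hlo, hhi⟩ := h
  intro X M
  refine ⟨?_, ?_, ?_⟩
  · have h1 : Continuous phi := by
      unfold phi
      exact (hc.continuous.comp Real.continuous_exp).mul Real.continuous_exp
    unfold GE
    exact (Complex.continuous_ofReal.comp h1).mul (GEC_EE X M)
  · intro x hx
    have h0 : phi x = 0 := by
      unfold phi
      rcases lt_abs.1 hx with h5 | h5
      · have h6 : (64 : ℝ) ≤ Real.exp x := by
          have h7 : Real.exp 1 ^ 5 ≤ Real.exp x := by
            rw [← Real.exp_nat_mul]
            exact Real.exp_le_exp.2 (by push_cast; linarith)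
          have h8 : (2.7182818283 : ℝ) ^ 5 ≤ Real.exp 1 ^ 5 :=
            pow_le_pow_left₀ (by norm_num) Real.exp_one_gt_d9.le 5
          have h9 : (64 : ℝ) ≤ 2.7182818283 ^ 5 := by norm_num
          linarith
        rw [hhi _ h6, zero_mul]
      · have h6 : Real.exp x ≤ 1 / 2 := by
          have h7 : Real.exp x ≤ Real.exp (-1) := Real.exp_le_exp.2 (by linarith)
          have h8 : Real.exp (-1) ≤ 1 / 2 := by
            rw [Real.exp_neg, inv_eq_one_div]
            exact one_div_le_one_div_of_le (by norm_num)
              (by linarith [Real.exp_one_gt_d9])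
          linarith
        rw [hlo _ h6, zero_mul]
    unfold GE
    rw [h0, Complex.ofReal_zero, zero_mul]
  · intro u
    unfold Bs GE
    refine integral_congr_ae (Filter.Eventually.of_forall fun x => ?_)
    exact mul_right_comm _ _ _

end Pool.Agent.ZD
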