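import Pool.Agent.helper90.ZD.SpecB
import Pool.Agent.helper59.DM.DV

/-!
# Project zd (MP_4467b5_nt), module BM2
-/

set_option autoImplicit false

open Complex MeasureTheory

namespace Pool.Agent.ZD

open Pool.Agent.helper84.DM Pool.Agent.helper78.ED Pool.Agent.DH

theorem BM2_split (h : ℕ) (u : ℝ) : PL (IL h) u = PL (Finset.Ioc h (2 * h)) u +
    PL (Finset.Ioc (2 * h) (2 * (2 * h))) u + PL (Finset.Ioc (4 * h) (2 * (4 * h))) u := by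
  unfold PL IL
  have e1 : 2 * (2 * h) = 4 * h := by ring
  have e2 : 2 * (4 * h) = 8 * h := by ring
  rw [e1, e2, Finset.sum_Ioc_consecutive _ (by omega) (by omega),
    Finset.sum_Ioc_consecutive _ (by omega) (by omega)]

theorem BM2_three (a b c : ℂ) : ‖a + b + c‖ ^ 2 ≤ 3 * (‖a‖ ^ 2 + ‖b‖ ^ 2 + ‖c‖ ^ 2) := by
  have h1 : ‖a + b + c‖ ≤ ‖a‖ + ‖b‖ + ‖c‖ := norm_add₃_le
  have h2 : ‖a + b + c‖ ^ 2 ≤ (‖a‖ + ‖b‖ + ‖c‖) ^ 2 :=
    pow_le_pow_left₀ (norm_nonneg _) h1 2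
  nlinarith [sq_nonneg (‖a‖ - ‖b‖), sq_nonneg (‖b‖ - ‖c‖), sq_nonneg (‖a‖ - ‖c‖)]

/-- BM2. Monotonicity. -/
theorem BM2 (hBM1 : BM1_stmt) : BM2_stmt := by
  intro ε hε
  obtain ⟨C₀, hC₀, hd⟩ := Pool.Agent.helper84.DM.divisor_bound (ε / 6) (by positivity)
  refine ⟨84 * C₀ * (8 : ℝ) ^ (ε / 6), by positivity, ?_⟩
  intro T hT W h L hh hhL hLT
  have hT0 : (0 : ℝ) ≤ T := by linarith
  set D : ℝ := C₀ * ((8 : ℝ) ^ (ε / 6) * T ^ ε) with hD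
  have hDk : ∀ k ∈ IL L, d k ≤ D := by
    intro k hk
    unfold IL at hk
    rw [Finset.mem_Ioc] at hk
    refine (hd k (by omega)).trans ?_
    rw [hD]
    refine mul_le_mul_of_nonneg_left ?_ hC₀.le
    have h1 : (k : ℝ) ≤ 8 * T ^ (6 : ℕ) := by
      have h2 : (k : ℝ) ≤ 8 * (L : ℝ) := by exact_mod_cast hk.2
      linarith
    have h3 : (8 * T ^ (6 : ℕ)) ^ (ε / 6) = (8 : ℝ) ^ (ε / 6) * T ^ ε := by
      rw [Real.mul_rpow (by norm_num) (by positivity), ← Real.rpow_natCast T 6,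
        ← Real.rpow_mul hT0]
      congr 2
      push_cast
      ring
    rw [← h3]
    exact Real.rpow_le_rpow (by positivity) h1 (by positivity)
  have hQ : QW W h ≤ 3 * (∑ t ∈ W, ∑ t' ∈ W, ‖PL (Finset.Ioc h (2 * h)) (t - t')‖ ^ 2 +
      ∑ t ∈ W, ∑ t' ∈ W, ‖PL (Finset.Ioc (2 * h) (2 * (2 * h))) (t - t')‖ ^ 2 +
      ∑ t ∈ W, ∑ t' ∈ W, ‖PL (Finset.Ioc (4 * h) (2 * (4 * h))) (t - t')‖ ^ 2) := by
    unfold QW
    rw [← Finset.sum_add_distrib, ← Finset.sum_add_distrib, Finset.mul_sum]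
    refine Finset.sum_le_sum fun t _ => ?_
    rw [← Finset.sum_add_distrib, ← Finset.sum_add_distrib, Finset.mul_sum]
    refine Finset.sum_le_sum fun t' _ => ?_
    rw [BM2_split]
    exact BM2_three _ _ _
  have hb1 := hBM1 W h L D hh (by omega) hDk
  have hb2 := hBM1 W (2 * h) L D (by omega) (by omega) hDk
  have hb3 := hBM1 W (4 * h) L D (by omega) (by omega) hDk
  push_cast at hb2 hb3
  have hL0 : (0 : ℝ) ≤ L := Nat.cast_nonneg _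
  calc (L : ℝ) * QW W h ≤ (L : ℝ) * (3 * (∑ t ∈ W, ∑ t' ∈ W, ‖PL (Finset.Ioc h (2 * h)) (t - t')‖ ^ 2 +
      ∑ t ∈ W, ∑ t' ∈ W, ‖PL (Finset.Ioc (2 * h) (2 * (2 * h))) (t - t')‖ ^ 2 +
      ∑ t ∈ W, ∑ t' ∈ W, ‖PL (Finset.Ioc (4 * h) (2 * (4 * h))) (t - t')‖ ^ 2)) :=
        mul_le_mul_of_nonneg_left hQ hL0
    _ ≤ 84 * h * D * QW W L := by
        rw [show ∀ a b c : ℝ, (L : ℝ) * (3 * (a + b + c)) =
          3 * ((L : ℝ) * a + (L : ℝ) * b + (L : ℝ) * c) from fun a b c => by ring]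
        have e : 84 * (h : ℝ) * D * QW W L = 3 * (4 * (h : ℝ) * D * QW W L +
          4 * (2 * (h : ℝ)) * D * QW W L + 4 * (4 * (h : ℝ)) * D * QW W L) := by ring
        rw [e]
        exact mul_le_mul_of_nonneg_left (add_le_add (add_le_add hb1 hb2) hb3) (by norm_num)
    _ = 84 * C₀ * (8 : ℝ) ^ (ε / 6) * T ^ ε * h * QW W L := by
        rw [hD]
        ring

end Pool.Agent.ZD
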